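import Pool.Agent.Helper66.Curl.P1a

open MeasureTheory Set Filter Topology Metric
open scoped ContDiff RealInnerProductSpace
open Pool.Agent.Helper38.Curl

namespace Pool.Agent.Helper66.Curl

theorem continuous_cr : Continuous (fun p : E × E => cr p.1 p.2) := by
  unfold cr
  refine (PiLp.continuous_toLp 2 _).comp (continuous_pi fun i => ?_)
  fin_cases i <;> simp <;> fun_prop

theorem bound_of_test {A : E → E} (h : Test A) : ∃ C, 0 ≤ C ∧ ∀ x, ‖A x‖ ≤ C := by
  obtain ⟨C, hC⟩ := h.1.continuous.bounded_above_of_compact_support h.2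
  exact ⟨C, (norm_nonneg _).trans (hC 0), hC⟩

theorem bound_fderiv_of_test {A : E → E} (h : Test A) : ∃ C, 0 ≤ C ∧ ∀ x, ‖fderiv ℝ A x‖ ≤ C := by
  obtain ⟨C, hC⟩ := (h.1.continuous_fderiv (by simp)).bounded_above_of_compact_support
    (h.2.fderiv (𝕜 := ℝ))
  exact ⟨C, (norm_nonneg _).trans (hC 0), hC⟩

theorem hasDerivAt_pt {φ : E → E} (hφ : Test φ) (u y : E) (t : ℝ) :
    HasDerivAt (fun t : ℝ => ⟪u, t • φ (t • y)⟫)
      ⟪u, φ (t • y) + t • fderiv ℝ φ (t • y) y⟫ t := by
  have h1 : HasDerivAt (fun t : ℝ => t • y) y t := by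
    simpa using (hasDerivAt_id t).smul_const y
  have h2 : HasDerivAt (fun t : ℝ => φ (t • y)) (fderiv ℝ φ (t • y) y) t :=
    (hφ.1.differentiable (by simp) (t • y)).hasFDerivAt.comp_hasDerivAt t h1
  have h3 : HasDerivAt (fun t : ℝ => t • φ (t • y))
      (t • fderiv ℝ φ (t • y) y + (1 : ℝ) • φ (t • y)) t := (hasDerivAt_id t).smul h2
  have h4 := ((innerSL ℝ u).hasFDerivAt (x := t • φ (t • y))).comp_hasDerivAt t h3
  rw [one_smul, add_comm] at h4
  exact h4

theorem hasDerivAt_F {u : E → E} {ρ : ℝ} (hu : Integrable u) (_hρ : 0 ≤ ρ)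
    (hv : ∀ x, x ∉ closedBall (0 : E) ρ → u x = 0) {φ : E → E} (hφ : Test φ) (h : ℝ) :
    HasDerivAt (fun t : ℝ => ∫ y, ⟪u y, t • φ (t • y)⟫)
      (∫ y, ⟪u y, φ (h • y) + h • fderiv ℝ φ (h • y) y⟫) h := by
  obtain ⟨C0, hC0, h0⟩ := bound_of_test hφ
  obtain ⟨C1, hC1, h1⟩ := bound_fderiv_of_test hφ
  have cφ := hφ.1.continuous
  have cφ' : Continuous (fderiv ℝ φ) := hφ.1.continuous_fderiv (by simp)
  have m1 : ∀ t : ℝ, AEStronglyMeasurable (fun y => ⟪u y, t • φ (t • y)⟫) volume := by
    intro t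
    refine hu.aestronglyMeasurable.inner ?_
    exact (Continuous.aestronglyMeasurable (by fun_prop))
  have m2 : AEStronglyMeasurable (fun y => ⟪u y, φ (h • y) + h • fderiv ℝ φ (h • y) y⟫) volume := by
    refine hu.aestronglyMeasurable.inner ?_
    exact (Continuous.aestronglyMeasurable (by fun_prop))
  have i1 : Integrable (fun y => ⟪u y, h • φ (h • y)⟫) := by
    refine Integrable.mono' (hu.norm.mul_const (|h| * C0)) (m1 h) ?_
    refine Eventually.of_forall fun y => ?_
    refine (norm_inner_le_norm _ _).trans ?_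
    gcongr
    rw [norm_smul, Real.norm_eq_abs]
    gcongr
    exact h0 _
  refine (hasDerivAt_integral_of_dominated_loc_of_deriv_le (ball_mem_nhds h one_pos)
    (Eventually.of_forall m1) i1 m2
    (F' := fun t y => ⟪u y, φ (t • y) + t • fderiv ℝ φ (t • y) y⟫)
    (bound := fun y => ‖u y‖ * (C0 + (|h| + 1) * (C1 * ρ))) ?_
    (hu.norm.mul_const _) ?_).2
  · refine Eventually.of_forall fun y t ht => ?_
    by_cases hy : y ∈ closedBall (0 : E) ρ
    · refine (norm_inner_le_norm _ _).trans ?_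
      gcongr
      refine (norm_add_le _ _).trans ?_
      gcongr
      · exact h0 _
      · rw [norm_smul, Real.norm_eq_abs]
        have ht' : |t| ≤ |h| + 1 := by
          rw [mem_ball, Real.dist_eq] at ht
          have := abs_sub_abs_le_abs_sub t h
          linarith
        gcongr
        refine (ContinuousLinearMap.le_opNorm _ _).trans ?_
        gcongr
        · exact h1 _
        · simpa using hy
    · rw [hv y hy]; simp
  · exact Eventually.of_forall fun y t _ => hasDerivAt_pt hφ (u y) y t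

theorem test_comp_smul {φ : E → E} (hφ : Test φ) {h : ℝ} (hh : h ≠ 0) :
    Test (fun y => φ (h • y)) :=
  ⟨hφ.1.comp (contDiff_const_smul h), hφ.2.comp_smul hh⟩

theorem D_eq {u : E → E} (hu : MemLp u 2) (hg : MemLp (fun y => cr y (u y)) 2)
    (hdiv : ∀ η, TestF η → ∫ x, fderiv ℝ η x (u x) = 0) {φ : E → E} (hφ : Test φ) {h : ℝ}
    (hh : 0 < h) :
    ∫ y, ⟪u y, φ (h • y) + h • fderiv ℝ φ (h • y) y⟫
      = h * ∫ y, ⟪curl φ (h • y), cr y (u y)⟫ := by
  have hT := test_comp_smul hφ hh.ne'
  have hQ : TestF (fun y => ⟪y, φ (h • y)⟫) := by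
    refine ⟨contDiff_id.inner ℝ hT.1, ?_⟩
    refine hT.2.mono ?_
    intro y hy
    rw [Function.mem_support] at hy ⊢
    intro h0
    apply hy
    simp only [h0, inner_zero_right]
  have hd : ∀ y w, fderiv ℝ (fun y : E => ⟪y, φ (h • y)⟫) y w
      = ⟪w, φ (h • y)⟫ + h * ⟪y, fderiv ℝ φ (h • y) w⟫ := by
    intro y w
    have h1 : HasFDerivAt (fun y : E => φ (h • y))
        ((fderiv ℝ φ (h • y)).comp (h • ContinuousLinearMap.id ℝ E)) y := by
      have h2 : HasFDerivAt (fun y : E => h • y) (h • ContinuousLinearMap.id ℝ E) y :=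
        (hasFDerivAt_id y).const_smul h
      exact (hφ.1.differentiable (by simp) (h • y)).hasFDerivAt.comp y h2
    have h3 := fderiv_inner_apply ℝ (f := fun y : E => y) (g := fun y => φ (h • y)) (x := y)
      differentiableAt_id h1.differentiableAt w
    rw [h3, h1.fderiv]
    simp only [ContinuousLinearMap.comp_apply, smul_apply,
      ContinuousLinearMap.id_apply, map_smul, inner_smul_right, fderiv_fun_id]
    ring
  have hp : ∀ y, ⟪u y, φ (h • y) + h • fderiv ℝ φ (h • y) y⟫
      = fderiv ℝ (fun y : E => ⟪y, φ (h • y)⟫) y (u y) + h * ⟪curl φ (h • y), cr y (u y)⟫ := by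
    intro y
    rw [hd, ← inner_fderiv_sub, inner_add_right, inner_smul_right,
      real_inner_comm (fderiv ℝ φ (h • y) y) (u y), real_inner_comm (fderiv ℝ φ (h • y) (u y)) y]
    ring
  have i1 : Integrable (fun y => fderiv ℝ (fun y : E => ⟪y, φ (h • y)⟫) y (u y)) := by
    simp only [← inner_gradient]
    exact integrable_inner hQ.gradient.memLp hu
  have i2 : Integrable (fun y => ⟪curl φ (h • y), cr y (u y)⟫) :=
    integrable_inner (test_comp_smul hφ.curl hh.ne').memLp hg
  simp only [hp]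
  rw [integral_add i1 (i2.const_mul h), hdiv _ hQ, zero_add, integral_const_mul]

theorem tf_eq (g ψ : E → E) {h : ℝ} (hh : 0 < h) :
    h * ∫ y, ⟪ψ (h • y), g y⟫ = tf g ψ h := by
  have h1 := Measure.integral_comp_smul_of_nonneg volume
    (fun x : E => ⟪g (h⁻¹ • x), ψ x⟫) h (hR := hh.le)
  rw [finrank_E] at h1
  simp only [inv_smul_smul₀ hh.ne'] at h1
  unfold tf ip dil
  have h2 : ∫ y, ⟪ψ (h • y), g y⟫ = ∫ y, ⟪g y, ψ (h • y)⟫ := by
    simp only [real_inner_comm]
  rw [h2, h1, smul_eq_mul, ← mul_assoc]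
  congr 1
  field_simp

/-- The potential of a solenoidal field supported in a ball centred at the origin. -/
theorem pot_zero {u : E → E} {ρ : ℝ} (hρ : 0 < ρ) (hm : StronglyMeasurable u) (hu : MemLp u 2)
    (hv : ∀ x, x ∉ closedBall (0 : E) ρ → u x = 0)
    (hdiv : ∀ η, TestF η → ∫ x, fderiv ℝ η x (u x) = 0) :
    ∃ a, MemLp a 2 ∧ VanOff (closedBall 0 ρ) a ∧
      Pool.Agent.Helper38.Curl.sq a ≤ 4 * ρ ^ 2 * Pool.Agent.Helper38.Curl.sq u ∧
      ∀ φ, Test φ → ip a (curl φ) = ip u φ := by
  set g : E → E := fun y => cr y (u y) with hgd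
  have hgm : StronglyMeasurable g :=
    continuous_cr.comp_stronglyMeasurable (stronglyMeasurable_id.prodMk hm)
  have hgv : ∀ x, x ∉ closedBall (0 : E) ρ → g x = 0 := by
    intro x hx
    simp only [hgd, hv x hx, cr_zero_right]
  have hgb : ∀ x, ‖g x‖ ≤ ρ * ‖u x‖ := by
    intro x
    by_cases hx : x ∈ closedBall (0 : E) ρ
    · refine (norm_cr_le _ _).trans ?_
      gcongr
      simpa using hx
    · rw [hgv x hx, hv x hx]; simp
  have hg2 : MemLp g 2 := hu.of_le_mul hgm.aestronglyMeasurable (Eventually.of_forall hgb)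
  have hgs : Pool.Agent.Helper38.Curl.sq g ≤ ρ ^ 2 * Pool.Agent.Helper38.Curl.sq u := by
    unfold Pool.Agent.Helper38.Curl.sq
    rw [← integral_const_mul]
    apply integral_mono (integrable_norm_sq hg2) ((integrable_norm_sq hu).const_mul _)
    intro x
    have := hgb x
    simp only
    rw [← mul_pow]
    gcongr
  have hu1 : Integrable u := by
    have h1 : IntegrableOn u (closedBall (0 : E) ρ) := by
      have h2 : MemLp u 2 (volume.restrict (closedBall (0 : E) ρ)) := hu.restrict _
      have : IsFiniteMeasure (volume.restrict (closedBall (0 : E) ρ)) :=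
        ⟨by rw [Measure.restrict_apply_univ]; exact measure_closedBall_lt_top⟩
      exact h2.integrable (by norm_num)
    rw [← integrable_indicator_iff isClosed_closedBall.measurableSet] at h1
    refine h1.congr (Eventually.of_forall fun x => ?_)
    by_cases hx : x ∈ closedBall (0 : E) ρ
    · rw [indicator_of_mem hx]
    · rw [indicator_of_notMem hx, hv x hx]
  obtain ⟨a, ha, hab, hr⟩ := exists_repr hgm hg2
  refine ⟨a, ha, vanOff_repr hgv ha hr, ?_, ?_⟩
  · have h0 := sq_nonneg' a
    have h1 := sq_nonneg' g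
    have h2 : Pool.Agent.Helper38.Curl.sq a ≤ (2 * √(Pool.Agent.Helper38.Curl.sq g)) ^ 2 := by
      calc Pool.Agent.Helper38.Curl.sq a = (√(Pool.Agent.Helper38.Curl.sq a)) ^ 2 :=
            (Real.sq_sqrt h0).symm
        _ ≤ _ := by gcongr
    rw [mul_pow, Real.sq_sqrt h1] at h2
    linarith
  · intro φ hφ
    rw [hr _ hφ.curl.memLp]
    have hF := fun h => hasDerivAt_F hu1 hρ.le hv hφ h
    have hD : ∀ h ∈ Ioo (0 : ℝ) 1, HasDerivAt (fun t : ℝ => ∫ y, ⟪u y, t • φ (t • y)⟫)
        (tf g (curl φ) h) h := by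
      intro h hh
      have := hF h
      rwa [D_eq hu hg2 hdiv hφ hh.1, tf_eq g (curl φ) hh.1] at this
    have hc : ContinuousOn (fun t : ℝ => ∫ y, ⟪u y, t • φ (t • y)⟫) (Icc 0 1) :=
      fun h _ => (hF h).continuousAt.continuousWithinAt
    rw [intervalIntegral.integral_eq_sub_of_hasDerivAt_of_le zero_le_one hc hD
      (integrable_tf hgm hg2 hφ.curl.1.continuous.stronglyMeasurable hφ.curl.memLp)]
    simp only [one_smul, zero_smul, inner_zero_right, integral_zero, sub_zero]
    rfl

theorem test_comp_add {φ : E → E} (hφ : Test φ) (c : E) : Test (fun y => φ (c + y)) :=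
  ⟨hφ.1.comp (contDiff_const.add contDiff_id), hφ.2.comp_homeomorph (Homeomorph.addLeft c)⟩

theorem testF_comp_add {φ : E → ℝ} (hφ : TestF φ) (c : E) : TestF (fun y => φ (c + y)) :=
  ⟨hφ.1.comp (contDiff_const.add contDiff_id), hφ.2.comp_homeomorph (Homeomorph.addLeft c)⟩

theorem curl_comp_add (φ : E → E) (c y : E) : curl (fun y => φ (c + y)) y = curl φ (c + y) := by
  unfold curl pd
  rw [fderiv_comp_add_left]

theorem sq_comp_add (v : E → E) (c : E) : Pool.Agent.Helper38.Curl.sq (fun y => v (c + y))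
    = Pool.Agent.Helper38.Curl.sq v :=
  integral_add_left_eq_self (fun x => ‖v x‖ ^ 2) c

theorem ip_comp_add (v w : E → E) (c : E) :
    ip (fun y => v (c + y)) (fun y => w (c + y)) = ip v w :=
  integral_add_left_eq_self (fun x => ⟪v x, w x⟫) c

/-- Packet C-P1: potentials of solenoidal fields supported in a ball. -/
theorem pot_exists {c : E} {ρ : ℝ} (hρ : 0 < ρ) {v : E → E} (hv : Sol (closedBall c ρ) v) :
    ∃ a, Pot a v ∧ VanOff (closedBall c ρ) a ∧
      Pool.Agent.Helper38.Curl.sq a ≤ 4 * ρ ^ 2 * Pool.Agent.Helper38.Curl.sq v := by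
  have hC : MeasurableSet (closedBall c ρ) := isClosed_closedBall.measurableSet
  -- a strongly measurable representative vanishing off the ball
  set v0 : E → E := (closedBall c ρ).indicator (hv.memLp.1.mk v) with hv0
  have hv0m : StronglyMeasurable v0 := hv.memLp.1.stronglyMeasurable_mk.indicator hC
  have hv0e : v0 =ᵐ[volume] v := by
    filter_upwards [hv.memLp.1.ae_eq_mk, hv.van] with x h1 h2
    by_cases hx : x ∈ closedBall c ρ
    · rw [hv0, indicator_of_mem hx, h1]
    · rw [hv0, indicator_of_notMem hx, h2 hx]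
  have hv0v : ∀ x, x ∉ closedBall c ρ → v0 x = 0 := fun x hx => by
    rw [hv0, indicator_of_notMem hx]
  have hv02 : MemLp v0 2 := (memLp_congr_ae hv0e).2 hv.memLp
  have mp := measurePreserving_add_left (volume : Measure E) c
  set u : E → E := fun y => v0 (c + y) with hu
  have hum : StronglyMeasurable u := hv0m.comp_measurable (measurable_const_add c)
  have hu2 : MemLp u 2 := hv02.comp_measurePreserving mp
  have huv : ∀ x, x ∉ closedBall (0 : E) ρ → u x = 0 := by
    intro x hx
    apply hv0v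
    intro hc
    apply hx
    rw [mem_closedBall, dist_eq_norm] at hc ⊢
    simpa using hc
  have hdiv : ∀ η, TestF η → ∫ x, fderiv ℝ η x (u x) = 0 := by
    intro η hη
    have h1 := hv.divFree _ (testF_comp_add hη (-c))
    have h2 : ∫ x, fderiv ℝ (fun y => η (-c + y)) x (v x)
        = ∫ x, fderiv ℝ η (-c + x) (v0 x) := by
      apply integral_congr_ae
      filter_upwards [hv0e] with x hx
      rw [fderiv_comp_add_left, hx]
    rw [h2, ← integral_add_left_eq_self _ c] at h1
    rw [← h1]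
    congr 1
    ext x
    simp [hu]
  obtain ⟨b, hb2, hbv, hbs, hbw⟩ := pot_zero hρ hum hu2 huv hdiv
  have mp' := measurePreserving_add_left (volume : Measure E) (-c)
  have hva : VanOff (closedBall c ρ) (fun x => b (-c + x)) := by
    filter_upwards [mp'.quasiMeasurePreserving.ae hbv] with x hx hxc
    apply hx
    intro hc
    apply hxc
    rw [mem_closedBall, dist_eq_norm] at hc ⊢
    rw [sub_zero] at hc
    rwa [sub_eq_neg_add]
  refine ⟨fun x => b (-c + x), ⟨hb2.comp_measurePreserving mp', hv.memLp, ?_, ?_⟩, hva, ?_⟩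
  · have hs : closedBall c ρ ⊆ closedBall (0 : E) (‖c‖ + ρ) := by
      apply closedBall_subset_closedBall'
      rw [dist_zero_right]; linarith
    exact ⟨‖c‖ + ρ, hva.mono hs, hv.van.mono hs⟩
  · intro φ hφ
    have h1 : ip (fun x => b (-c + x)) (curl φ) = ip b (curl (fun y => φ (c + y))) := by
      rw [← ip_comp_add _ _ c]
      congr 1
      · ext x; simp
      · ext x; rw [curl_comp_add]
    rw [h1, hbw _ (test_comp_add hφ c), hu, ip_comp_add]
    exact ip_congr hv0e (EventuallyEq.refl _ _)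
  · rw [sq_comp_add]
    refine hbs.trans (le_of_eq ?_)
    rw [hu, sq_comp_add, sq_congr hv0e]

end Pool.Agent.Helper66.Curl
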