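import Pool.Agent.Helper38.Curl.Rep
import Pool.Agent.Helper37.Curl.F2

open MeasureTheory Set Filter Topology Metric
open scoped ContDiff RealInnerProductSpace
open Pool.Agent.Helper38.Curl

namespace Pool.Agent.Helper66.Curl

/-! ## Averages and affine maps -/

theorem avg_aff (x : E) {s : ℝ} (hs : 0 < s) (S : Set E) (f : E → ℝ) :
    ⨍ y in S, f y = ⨍ η in {η | x + s • η ∈ S}, f (x + s • η) := by
  let e : E ≃ᵐ E :=
    ((Homeomorph.smulOfNeZero s hs.ne').trans (Homeomorph.addLeft x)).toMeasurableEquiv
  have he : ∀ η, e η = x + s • η := fun η => rfl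
  have hS : {η | x + s • η ∈ S} = e ⁻¹' S := rfl
  have hmap : Measure.map e (volume : Measure E) = ENNReal.ofReal |(s ^ 3)⁻¹| • volume := by
    have h1 : Measure.map e (volume : Measure E)
        = Measure.map (fun y : E => x + y) (Measure.map (fun y : E => s • y) volume) := by
      rw [Measure.map_map (measurable_const_add x) (measurable_const_smul s)]
      rfl
    rw [h1, Measure.map_addHaar_smul volume hs.ne', Measure.map_smul, map_add_left_eq_self]
    congr 3
    simp
  have hc : (ENNReal.ofReal |(s ^ 3)⁻¹|).toReal = (s ^ 3)⁻¹ := by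
    rw [ENNReal.toReal_ofReal (abs_nonneg _), abs_of_pos (by positivity)]
  rw [setAverage_eq, setAverage_eq, hS]
  have h1 : ∫ η in e ⁻¹' S, f (x + s • η) = ∫ y in S, f y ∂(Measure.map e volume) :=
    (setIntegral_map_equiv e f S).symm
  have h2 : Measure.map e volume S = volume (e ⁻¹' S) := e.map_apply S
  rw [h1, measureReal_def, measureReal_def, ← h2, hmap, Measure.restrict_smul,
    integral_smul_measure]
  simp only [Measure.smul_apply, smul_eq_mul, ENNReal.toReal_mul, hc, mul_inv, inv_inv]
  field_simp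

theorem avg_div (μ : Measure E) (f : E → ℝ) (s : ℝ) : (⨍ y, f y ∂μ) / s = ⨍ y, f y / s ∂μ := by
  rw [average_eq', average_eq', integral_div]

theorem Th_scale (Ω : Set E) (A : E → E) (q : E → ℝ) {s : ℝ} (hs : 0 < s) (x z : E) :
    Th Ω A q s (x + s • z) / s = Th {z | x + s • z ∈ Ω} (fun z => A (x + s • z))
      (fun z => q (x + s • z) / s) 1 z := by
  unfold Th
  have hb : ∀ η : E, x + s • η ∈ ball (x + s • z) s ↔ η ∈ ball z 1 := by
    intro η
    rw [mem_ball, mem_ball, dist_eq_norm, dist_eq_norm, add_sub_add_left_eq_sub, ← smul_sub,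
      norm_smul, Real.norm_eq_abs, abs_of_pos hs]
    constructor
    · intro h
      have : s * ‖η - z‖ < s * 1 := by rwa [mul_one]
      exact lt_of_mul_lt_mul_left this hs.le
    · intro h
      calc s * ‖η - z‖ < s * 1 := by gcongr
        _ = s := mul_one s
  have hS1 : {η | x + s • η ∈ ball (x + s • z) s ∩ Ω} = ball z 1 ∩ {z | x + s • z ∈ Ω} := by
    ext η
    simp only [mem_ofPred_eq, mem_inter_iff, hb]
  have hS2 : {η | x + s • η ∈ ball (x + s • z) s \ Ω} = ball z 1 \ {z | x + s • z ∈ Ω} := by
    ext η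
    simp only [mem_ofPred_eq, Set.mem_sdiff, hb]
  rw [avg_aff x hs (ball (x + s • z) s ∩ Ω), hS1, avg_div]
  congr 1
  ext η
  rw [avg_aff x hs (ball (x + s • z) s \ Ω), hS2, avg_div]
  congr 1
  ext η'
  rw [add_div]
  congr 1
  rw [← intervalIntegral.integral_div]
  congr 1
  ext t
  have e1 : x + s • η - (x + s • η') = s • (η - η') := by
    rw [add_sub_add_left_eq_sub, smul_sub]
  have e2 : x + s • η' + t • (s • (η - η')) = x + s • (η' + t • (η - η')) := by
    rw [smul_add, add_assoc, smul_comm t s]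
  rw [e1, e2, inner_smul_right]
  field_simp

/-! ## Bounds for averages -/

theorem avg_bound {S B : Set E} (hSB : S ⊆ B) (hB : MeasurableSet B) {f : E → ℝ} {M : ℝ}
    (hM : 0 ≤ M) (h : ∀ y ∈ B, |f y| ≤ M) : |⨍ y in S, f y| ≤ M := by
  rw [average_eq']
  set ν : Measure E := ((volume.restrict S) univ)⁻¹ • volume.restrict S with hν
  have h1 : ν univ ≤ 1 := by
    rw [hν, Measure.smul_apply, smul_eq_mul]
    exact ENNReal.inv_mul_le_one _
  have : IsFiniteMeasure ν := ⟨h1.trans_lt ENNReal.one_lt_top⟩
  have h2 : ∀ᵐ y ∂ν, ‖f y‖ ≤ M := by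
    apply Measure.ae_smul_measure
    have h3 : ∀ᵐ y ∂(volume.restrict B), ‖f y‖ ≤ M := by
      filter_upwards [ae_restrict_mem hB] with y hy
      exact h y hy
    exact ae_mono (Measure.restrict_mono hSB le_rfl) h3
  have h4 := norm_integral_le_of_norm_le_const h2
  rw [Real.norm_eq_abs] at h4
  refine h4.trans ?_
  have h5 : ν.real univ ≤ 1 := by
    rw [measureReal_def]
    exact ENNReal.toReal_le_of_le_ofReal zero_le_one (by simpa using h1)
  calc M * ν.real univ ≤ M * 1 := by gcongr
    _ = M := mul_one M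

theorem abs_Th_le {Ω : Set E} {A : E → E} {q : E → ℝ} {a b s : ℝ} (hA : ∀ y, ‖A y‖ ≤ a)
    (hq : ∀ y, |q y| ≤ b) (_hs : 0 < s) (hs1 : s ≤ 1) (x : E) : |Th Ω A q s x| ≤ b + 2 * a := by
  have ha : 0 ≤ a := (norm_nonneg _).trans (hA 0)
  have hb : 0 ≤ b := (abs_nonneg _).trans (hq 0)
  unfold Th
  refine avg_bound inter_subset_left measurableSet_ball (by positivity) fun y hy => ?_
  refine avg_bound sdiff_subset measurableSet_ball (by positivity) fun y' hy' => ?_
  refine (abs_add_le _ _).trans ?_
  gcongr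
  · exact hq y
  · have h1 : ‖y - y'‖ ≤ 2 := by
      rw [← dist_eq_norm]
      have := dist_triangle_right y y' x
      rw [mem_ball] at hy hy'
      linarith
    have h2 : ∀ t ∈ uIoc (0 : ℝ) 1, ‖⟪A (y' + t • (y - y')), y - y'⟫‖ ≤ a * 2 := by
      intro t _
      refine (norm_inner_le_norm _ _).trans ?_
      gcongr
      exact hA _
    have h3 := intervalIntegral.norm_integral_le_of_norm_le_const h2
    rw [Real.norm_eq_abs] at h3
    refine h3.trans (le_of_eq ?_)
    norm_num
    ring

/-! ## The averaged potential near a function vanishing outside -/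

/-- The length integral of a continuous function of the segment. -/
theorem cont_seg {W : E → E → ℝ → ℝ} (hW : Continuous fun p : E × E × ℝ => W p.1 p.2.1 p.2.2) :
    Continuous (fun p : E × E => ∫ t in (0 : ℝ)..1, W p.1 p.2 t) := by
  refine intervalIntegral.continuous_parametric_intervalIntegral_of_continuous'
    (f := fun (p : E × E) (t : ℝ) => W p.1 p.2 t) ?_ 0 1
  exact hW.comp (by fun_prop : Continuous fun p : (E × E) × ℝ => (p.1.1, p.1.2, p.2))

theorem int_inner {K : E × E → ℝ} (hK : Continuous K) {z : E} {S T : Set E}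
    (hS : S ⊆ ball z 1) (hT : T ⊆ ball z 1) (hSm : MeasurableSet S) (_hTm : MeasurableSet T) :
    (∀ y, IntegrableOn (fun y' => K (y, y')) T) ∧
    IntegrableOn (fun y => ∫ y' in T, K (y, y')) S := by
  have hTf : volume T < ⊤ := (measure_mono hT).trans_lt measure_ball_lt_top
  have hSf : volume S < ⊤ := (measure_mono hS).trans_lt measure_ball_lt_top
  have hB : IsCompact (closedBall z 1) := isCompact_closedBall z 1
  constructor
  · intro y
    have h1 : Continuous (fun y' => K (y, y')) := by fun_prop
    exact (h1.continuousOn.integrableOn_compact hB).mono_set (hT.trans ball_subset_closedBall)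
  · obtain ⟨C, hC⟩ := (hB.prod hB).exists_bound_of_continuousOn hK.continuousOn
    have hm : StronglyMeasurable (fun y => ∫ y' in T, K (y, y')) :=
      hK.stronglyMeasurable.integral_prod_right'
    refine Measure.integrableOn_of_bounded (M := C * volume.real T) hSf.ne
      hm.aestronglyMeasurable ?_
    filter_upwards [ae_restrict_mem hSm] with y hy
    refine norm_setIntegral_le_of_norm_le_const hTf fun y' hy' => ?_
    exact hC (y, y') ⟨ball_subset_closedBall (hS hy), ball_subset_closedBall (hT hy')⟩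

theorem Th_le' (seg_le : ∀ {K : Set E}, Convex ℝ K → MeasurableSet K →
    Bornology.IsBounded K → ∀ {f : E → ℝ}, Continuous f → (∀ x, 0 ≤ f x) →
    ∫ y in K, ∫ y' in K, ∫ t in (0 : ℝ)..1, f (y' + t • (y - y'))
      ≤ 8 * volume.real K * ∫ x in K, f x)
    {O : Set E} (hO : MeasurableSet O) {A : E → E} (hA : Test A) {q : E → ℝ}
    (hq : Continuous q) {ζ : E → ℝ} (hζ : ContDiff ℝ 1 ζ) {z : E}
    (h0 : ∀ y ∈ ball z 1 \ O, ζ y = 0) {m : ℝ} (hm : 0 < m)
    (hm₁ : m ≤ volume.real (ball z 1 ∩ O)) (hm₂ : m ≤ volume.real (ball z 1 \ O)) :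
    |Th O A q 1 z - ⨍ y in ball z 1 ∩ O, (q y + ζ y)|
      ≤ 16 * volume.real (ball z 1) / m ^ 2 * ∫ y in ball z 1, ‖A y - gradient ζ y‖ := by
  have cA : Continuous A := hA.1.continuous
  have cζ : Continuous ζ := hζ.continuous
  have cG : Continuous (gradient ζ) := by
    unfold gradient
    exact (InnerProductSpace.toDual ℝ E).symm.continuous.comp (hζ.continuous_fderiv (by simp))
  set P := ball z 1 ∩ O with hP
  set N := ball z 1 \ O with hN
  have hPm : MeasurableSet P := measurableSet_ball.inter hO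
  have hNm : MeasurableSet N := measurableSet_ball.diff hO
  have hPB : P ⊆ ball z 1 := inter_subset_left
  have hNB : N ⊆ ball z 1 := sdiff_subset
  have hP0 : 0 < volume.real P := hm.trans_le hm₁
  have hN0 : 0 < volume.real N := hm.trans_le hm₂
  set f : E → ℝ := fun y => ‖A y - gradient ζ y‖ with hf
  have cf : Continuous f := (cA.sub cG).norm
  -- the kernels
  set W : E × E → ℝ := fun p => ∫ t in (0 : ℝ)..1, ⟪A (p.2 + t • (p.1 - p.2)), p.1 - p.2⟫ with hW
  set J : E × E → ℝ := fun p => ∫ t in (0 : ℝ)..1, f (p.2 + t • (p.1 - p.2)) with hJ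
  have cW : Continuous W :=
    cont_seg (W := fun y y' t => ⟪A (y' + t • (y - y')), y - y'⟫) (by fun_prop)
  have cJ : Continuous J :=
    cont_seg (W := fun y y' t => f (y' + t • (y - y'))) (by fun_prop)
  have cK : Continuous (fun p : E × E => q p.1 + W p) := by fun_prop
  have cR : Continuous (fun p : E × E => W p - ζ p.1) := by fun_prop
  have hJ0 : ∀ p, 0 ≤ J p := fun p =>
    intervalIntegral.integral_nonneg zero_le_one fun t _ => norm_nonneg _
  -- the difference of the averages
  have hN1 : ∀ c : ℝ, ⨍ _ in N, c = c := fun c =>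
    setAverage_const (fun h => by rw [measureReal_def, h] at hN0; simp at hN0)
      ((measure_mono hNB).trans_lt measure_ball_lt_top).ne c
  have e1 : Th O A q 1 z - ⨍ y in P, (q y + ζ y)
      = ⨍ y in P, ⨍ y' in N, (W (y, y') - ζ y) := by
    unfold Th
    have e2 : ∀ y, ⨍ y' in N, (W (y, y') - ζ y)
        = (⨍ y' in N, (q y + W (y, y'))) - (q y + ζ y) := by
      intro y
      have i1 := (int_inner cK hPB hNB hPm hNm).1 y
      conv_rhs => rw [← hN1 (q y + ζ y)]
      rw [setAverage_eq, setAverage_eq, setAverage_eq, ← smul_sub, ← integral_sub i1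
        (integrableOn_const ((measure_mono hNB).trans_lt measure_ball_lt_top).ne)]
      congr 2
      ext y'
      ring
    simp only [e2]
    have i3 : IntegrableOn (fun y => ⨍ y' in N, (q y + W (y, y'))) P := by
      simp only [setAverage_eq, smul_eq_mul]
      exact (int_inner cK hPB hNB hPm hNm).2.const_mul _
    have i4 : IntegrableOn (fun y => q y + ζ y) P :=
      ((hq.add cζ).continuousOn.integrableOn_compact (isCompact_closedBall z 1)).mono_set
        (hPB.trans ball_subset_closedBall)
    rw [setAverage_eq _ (fun y => (⨍ y' in N, (q y + W (y, y'))) - (q y + ζ y)),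
      integral_sub i3 i4, smul_sub, ← setAverage_eq, ← setAverage_eq]
  have hR : ∀ y ∈ P, ∀ y' ∈ N, |W (y, y') - ζ y| ≤ 2 * J (y, y') := by
    intro y hy y' hy'
    have h1 : ζ y = ∫ t in (0 : ℝ)..1, ⟪gradient ζ (y' + t • (y - y')), y - y'⟫ := by
      have hd : ∀ t ∈ uIcc (0 : ℝ) 1, HasDerivAt (fun t : ℝ => ζ (y' + t • (y - y')))
          ⟪gradient ζ (y' + t • (y - y')), y - y'⟫ t := by
        intro t _
        have d1 : HasDerivAt (fun t : ℝ => y' + t • (y - y')) (y - y') t := by
          simpa using ((hasDerivAt_id t).smul_const (y - y')).const_add y'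
        rw [inner_gradient]
        exact (hζ.differentiable (by simp) _).hasFDerivAt.comp_hasDerivAt t d1
      rw [intervalIntegral.integral_eq_sub_of_hasDerivAt hd
        (Continuous.intervalIntegrable (by fun_prop) _ _)]
      simp [h0 y' hy']
    have h2 : W (y, y') - ζ y
        = ∫ t in (0 : ℝ)..1, ⟪A (y' + t • (y - y')) - gradient ζ (y' + t • (y - y')), y - y'⟫ := by
      rw [h1, hW]
      simp only
      rw [← intervalIntegral.integral_sub (Continuous.intervalIntegrable (by fun_prop) _ _)
        (Continuous.intervalIntegrable (by fun_prop) _ _)]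
      simp only [inner_sub_left]
    have h3 : ‖y - y'‖ ≤ 2 := by
      rw [← dist_eq_norm]
      have := dist_triangle_right y y' z
      have a1 := hPB hy
      have a2 := hNB hy'
      rw [mem_ball] at a1 a2
      linarith
    rw [h2, hJ]
    simp only
    rw [← intervalIntegral.integral_const_mul]
    refine (intervalIntegral.abs_integral_le_integral_abs zero_le_one).trans ?_
    apply intervalIntegral.integral_mono_on zero_le_one
      (Continuous.intervalIntegrable (by fun_prop) _ _)
      (Continuous.intervalIntegrable (by fun_prop) _ _)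
    intro t _
    refine (abs_real_inner_le_norm _ _).trans ?_
    rw [mul_comm 2]
    simp only [hf]
    gcongr
  have b1 : |∫ y in P, ∫ y' in N, (W (y, y') - ζ y)| ≤ 2 * ∫ y in P, ∫ y' in N, J (y, y') := by
    rw [← integral_const_mul]
    refine (abs_integral_le_integral_abs).trans ?_
    apply setIntegral_mono_on (int_inner cR hPB hNB hPm hNm).2.abs
      ((int_inner cJ hPB hNB hPm hNm).2.const_mul 2) hPm
    intro y hy
    rw [← integral_const_mul]
    refine (abs_integral_le_integral_abs).trans ?_
    apply setIntegral_mono_on ((int_inner cR hPB hNB hPm hNm).1 y).abs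
      (((int_inner cJ hPB hNB hPm hNm).1 y).const_mul 2) hNm
    intro y' hy'
    exact hR y hy y' hy'
  have b2 : ∫ y in P, ∫ y' in N, J (y, y') ≤ ∫ y in ball z 1, ∫ y' in ball z 1, J (y, y') := by
    have hB : MeasurableSet (ball z 1) := measurableSet_ball
    calc ∫ y in P, ∫ y' in N, J (y, y') ≤ ∫ y in P, ∫ y' in ball z 1, J (y, y') := by
          apply setIntegral_mono_on (int_inner cJ hPB hNB hPm hNm).2
            (int_inner cJ hPB subset_rfl hPm hB).2 hPm
          intro y _
          exact setIntegral_mono_set ((int_inner cJ hPB subset_rfl hPm hB).1 y)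
            (Eventually.of_forall fun y' => hJ0 _) (Eventually.of_forall fun y' hy' => hNB hy')
      _ ≤ _ := by
          apply setIntegral_mono_set (int_inner cJ subset_rfl subset_rfl hB hB).2
            (Eventually.of_forall fun y => integral_nonneg fun y' => hJ0 _)
            (Eventually.of_forall fun y' hy' => hPB hy')
  have b3 := seg_le (convex_ball z 1) measurableSet_ball isBounded_ball cf
    (fun x => norm_nonneg _)
  have hI0 : 0 ≤ ∫ y in ball z 1, f y := integral_nonneg fun _ => norm_nonneg _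
  rw [e1]
  have e5 : ⨍ y in P, ⨍ y' in N, (W (y, y') - ζ y)
      = (volume.real P)⁻¹ * (volume.real N)⁻¹ * ∫ y in P, ∫ y' in N, (W (y, y') - ζ y) := by
    rw [setAverage_eq]
    simp only [setAverage_eq, smul_eq_mul]
    rw [integral_const_mul, mul_assoc]
  rw [e5, abs_mul, abs_of_pos (by positivity)]
  calc (volume.real P)⁻¹ * (volume.real N)⁻¹ * |∫ y in P, ∫ y' in N, (W (y, y') - ζ y)|
      ≤ m⁻¹ * m⁻¹ * (2 * (8 * volume.real (ball z 1) * ∫ y in ball z 1, f y)) := by
        gcongr
        exact b1.trans (by gcongr; exact b2.trans b3)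
    _ = _ := by
        field_simp
        ring

theorem Th_le {O : Set E} (hO : MeasurableSet O) {A : E → E} (hA : Test A) {q : E → ℝ}
    (hq : Continuous q) {ζ : E → ℝ} (hζ : ContDiff ℝ 1 ζ) {z : E}
    (h0 : ∀ y ∈ ball z 1 \ O, ζ y = 0) {m : ℝ} (hm : 0 < m)
    (hm₁ : m ≤ volume.real (ball z 1 ∩ O)) (hm₂ : m ≤ volume.real (ball z 1 \ O)) :
    |Th O A q 1 z - ⨍ y in ball z 1 ∩ O, (q y + ζ y)|
      ≤ 16 * volume.real (ball z 1) / m ^ 2 * ∫ y in ball z 1, ‖A y - gradient ζ y‖ :=
  Th_le' (fun h1 h2 h3 _ h4 h5 => Pool.Agent.Helper37.Curl.seg_le h1 h2 h3 h4 h5)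
    hO hA hq hζ h0 hm hm₁ hm₂

end Pool.Agent.Helper66.Curl
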