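import Pool.Agent.Helper38.Curl.Rep

open MeasureTheory Set Filter Topology Metric
open scoped ContDiff RealInnerProductSpace
open Pool.Agent.Helper38.Curl

namespace Pool.Agent.Helper66.Curl

/-! ## Dilations -/

/-- Dilation of a field. -/
noncomputable def dil (g : E → E) (h : ℝ) (x : E) : E := g (h⁻¹ • x)

theorem finrank_E : Module.finrank ℝ E = 3 := by simp

theorem memLp_dil {g : E → E} (hg : MemLp g 2) {h : ℝ} (hh : 0 < h) : MemLp (dil g h) 2 := by
  have h1 : MemLp g 2 (Measure.map (fun x : E => h⁻¹ • x) volume) := by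
    rw [Measure.map_addHaar_smul volume (inv_ne_zero hh.ne')]
    exact hg.smul_measure ENNReal.ofReal_ne_top
  exact h1.comp_of_map (measurable_const_smul h⁻¹).aemeasurable

theorem sq_dil (g : E → E) {h : ℝ} (hh : 0 < h) : sq (dil g h) = h ^ 3 * sq g := by
  have := Measure.integral_comp_inv_smul_of_nonneg volume (fun x : E => ‖g x‖ ^ 2) hh.le
  rw [finrank_E] at this
  exact this

theorem sqrt_sq_dil (g : E → E) {h : ℝ} (hh : 0 < h) :
    (h ^ 2)⁻¹ * √(sq (dil g h)) = h ^ (-(1 / 2) : ℝ) * √(sq g) := by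
  rw [sq_dil g hh, Real.sqrt_mul (by positivity), ← mul_assoc]
  congr 1
  rw [Real.sqrt_eq_rpow, ← Real.rpow_natCast, ← Real.rpow_natCast, ← Real.rpow_mul hh.le,
    ← Real.rpow_neg hh.le, ← Real.rpow_add hh]
  norm_num

/-- The integrand of the functional. -/
noncomputable def tf (g ψ : E → E) (h : ℝ) : ℝ := (h ^ 2)⁻¹ * ip (dil g h) ψ

theorem measurable_tf {g ψ : E → E} (hg : StronglyMeasurable g) (hψ : StronglyMeasurable ψ) :
    StronglyMeasurable (tf g ψ) := by
  unfold tf
  refine StronglyMeasurable.mul ?_ ?_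
  · exact ((measurable_id.pow_const 2).inv).stronglyMeasurable
  · have h1 : StronglyMeasurable (fun p : ℝ × E => ⟪g (p.1⁻¹ • p.2), ψ p.2⟫) := by
      refine StronglyMeasurable.inner ?_ ?_
      · exact hg.comp_measurable ((measurable_fst.inv).smul measurable_snd)
      · exact hψ.comp_measurable measurable_snd
    exact h1.integral_prod_right'

theorem tf_bound {g ψ : E → E} (hg : MemLp g 2) (hψ : MemLp ψ 2) {h : ℝ} (hh : 0 < h) :
    |tf g ψ h| ≤ h ^ (-(1 / 2) : ℝ) * (√(sq g) * √(sq ψ)) := by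
  unfold tf
  rw [abs_mul, abs_of_pos (by positivity : (0 : ℝ) < (h ^ 2)⁻¹)]
  calc (h ^ 2)⁻¹ * |ip (dil g h) ψ| ≤ (h ^ 2)⁻¹ * (√(sq (dil g h)) * √(sq ψ)) := by
        gcongr
        exact abs_ip_le (memLp_dil hg hh) hψ
    _ = h ^ (-(1 / 2) : ℝ) * (√(sq g) * √(sq ψ)) := by
        rw [← mul_assoc, sqrt_sq_dil g hh, mul_assoc]

theorem integrable_tf {g ψ : E → E} (hg : StronglyMeasurable g) (hg2 : MemLp g 2)
    (hψ : StronglyMeasurable ψ) (hψ2 : MemLp ψ 2) :
    IntervalIntegrable (tf g ψ) volume 0 1 := by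
  rw [intervalIntegrable_iff_integrableOn_Ioc_of_le zero_le_one]
  have h1 : IntegrableOn (fun h : ℝ => h ^ (-(1 / 2) : ℝ) * (√(sq g) * √(sq ψ))) (Ioc 0 1) := by
    have := (intervalIntegral.intervalIntegrable_rpow' (a := 0) (b := 1)
      (r := (-(1 / 2) : ℝ)) (by norm_num)).mul_const (√(sq g) * √(sq ψ))
    rwa [intervalIntegrable_iff_integrableOn_Ioc_of_le zero_le_one] at this
  refine Integrable.mono' h1 (measurable_tf hg hψ).aestronglyMeasurable ?_
  filter_upwards [ae_restrict_mem measurableSet_Ioc] with h hh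
  rw [Real.norm_eq_abs]
  exact tf_bound hg2 hψ2 hh.1

theorem integral_tf_bound {g ψ : E → E} (hg : StronglyMeasurable g) (hg2 : MemLp g 2)
    (hψ : StronglyMeasurable ψ) (hψ2 : MemLp ψ 2) :
    |∫ h in (0 : ℝ)..1, tf g ψ h| ≤ 2 * (√(sq g) * √(sq ψ)) := by
  have h0 := intervalIntegral.abs_integral_le_integral_abs (f := tf g ψ) (μ := volume)
    (zero_le_one (α := ℝ))
  refine h0.trans ?_
  have h1 : IntervalIntegrable (fun h : ℝ => h ^ (-(1 / 2) : ℝ) * (√(sq g) * √(sq ψ)))
      volume 0 1 :=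
    (intervalIntegral.intervalIntegrable_rpow' (by norm_num)).mul_const _
  have h2 : ∫ h in (0 : ℝ)..1, |tf g ψ h|
      ≤ ∫ h in (0 : ℝ)..1, h ^ (-(1 / 2) : ℝ) * (√(sq g) * √(sq ψ)) := by
    apply intervalIntegral.integral_mono_on_of_le_Ioo zero_le_one
      (integrable_tf hg hg2 hψ hψ2).abs h1
    intro h hh
    exact tf_bound hg2 hψ2 hh.1
  refine h2.trans (le_of_eq ?_)
  rw [intervalIntegral.integral_mul_const, integral_rpow (Or.inl (by norm_num))]
  norm_num

theorem tf_congr (g : E → E) {ψ ψ' : E → E} (h : ψ =ᵐ[volume] ψ') : tf g ψ = tf g ψ' := by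
  ext t
  unfold tf
  rw [ip_congr (EventuallyEq.refl _ _) h]

/-- The potential of a field supported in a ball, as an element of `L²`: Riesz representation. -/
theorem exists_repr {g : E → E} (hg : StronglyMeasurable g) (hg2 : MemLp g 2) :
    ∃ a : E → E, MemLp a 2 ∧ √(sq a) ≤ 2 * √(sq g) ∧
      ∀ ψ, MemLp ψ 2 → ip a ψ = ∫ h in (0 : ℝ)..1, tf g ψ h := by
  have hadd : ∀ φ ψ : Lp E 2 (volume : Measure E), ∀ h, 0 < h →
      tf g (φ + ψ : Lp E 2 (volume : Measure E)) h = tf g φ h + tf g ψ h := by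
    intro φ ψ h hh
    rw [tf_congr g (Lp.coeFn_add φ ψ)]
    unfold tf
    have := ip_add_right (memLp_dil hg2 hh) (Lp.memLp φ) (Lp.memLp ψ)
    rw [show ((φ : E → E) + (ψ : E → E)) = fun x => φ x + ψ x from rfl, this]; ring
  have hsm : ∀ (c : ℝ) (ψ : Lp E 2 (volume : Measure E)), ∀ h,
      tf g (c • ψ : Lp E 2 (volume : Measure E)) h = c * tf g ψ h := by
    intro c ψ h
    rw [tf_congr g (Lp.coeFn_smul c ψ)]
    unfold tf
    have := ip_smul_right c (dil g h) ψ
    rw [show (c • (ψ : E → E)) = fun x => c • ψ x from rfl, this]; ring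
  have hint : ∀ ψ : Lp E 2 (volume : Measure E), IntervalIntegrable (tf g ψ) volume 0 1 :=
    fun ψ => integrable_tf hg hg2 (Lp.stronglyMeasurable ψ) (Lp.memLp ψ)
  let T0 : Lp E 2 (volume : Measure E) →ₗ[ℝ] ℝ :=
    { toFun := fun ψ => ∫ h in (0 : ℝ)..1, tf g ψ h
      map_add' := by
        intro φ ψ
        rw [← intervalIntegral.integral_add (hint φ) (hint ψ)]
        rw [intervalIntegral.integral_of_le zero_le_one,
          intervalIntegral.integral_of_le zero_le_one]
        apply setIntegral_congr_fun measurableSet_Ioc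
        intro h hh
        exact hadd φ ψ h hh.1
      map_smul' := by
        intro c ψ
        simp only [RingHom.id_apply, smul_eq_mul]
        rw [← intervalIntegral.integral_const_mul]
        congr 1
        ext h
        exact hsm c ψ h }
  let T : Lp E 2 (volume : Measure E) →L[ℝ] ℝ := T0.mkContinuous (2 * √(sq g)) (by
    intro ψ
    have := integral_tf_bound hg hg2 (Lp.stronglyMeasurable ψ) (Lp.memLp ψ)
    rw [sqrt_sq_eq_norm (Lp.memLp ψ), Lp.toLp_coeFn, ← mul_assoc] at this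
    exact this)
  have hT : ‖T‖ ≤ 2 * √(sq g) := LinearMap.mkContinuous_norm_le _ (by positivity) _
  let A : Lp E 2 (volume : Measure E) := (InnerProductSpace.toDual ℝ _).symm T
  have hA : ∀ ψ, ⟪A, ψ⟫ = T ψ := fun ψ => InnerProductSpace.toDual_symm_apply
  refine ⟨A, Lp.memLp A, ?_, ?_⟩
  · rw [sqrt_sq_eq_norm (Lp.memLp A), Lp.toLp_coeFn]
    have : ‖A‖ = ‖T‖ := LinearIsometryEquiv.norm_map _ _
    rw [this]; exact hT
  · intro ψ hψ
    rw [ip_eq_inner (Lp.memLp A) hψ, Lp.toLp_coeFn, hA]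
    change ∫ h in (0 : ℝ)..1, tf g (hψ.toLp ψ) h = _
    rw [tf_congr g hψ.coeFn_toLp]

theorem vanOff_repr {g : E → E} {ρ : ℝ} (hv : ∀ x, x ∉ closedBall (0 : E) ρ → g x = 0)
    {a : E → E} (ha : MemLp a 2)
    (h : ∀ ψ, MemLp ψ 2 → ip a ψ = ∫ h in (0 : ℝ)..1, tf g ψ h) :
    VanOff (closedBall (0 : E) ρ) a := by
  have hm : MeasurableSet (closedBall (0 : E) ρ)ᶜ := isClosed_closedBall.measurableSet.compl
  set ψ : E → E := (closedBall (0 : E) ρ)ᶜ.indicator a with hψd
  have hψ : MemLp ψ 2 := ha.indicator hm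
  have h1 : ∫ h in (0 : ℝ)..1, tf g ψ h = 0 := by
    rw [intervalIntegral.integral_of_le zero_le_one]
    apply setIntegral_eq_zero_of_forall_eq_zero
    intro t ht
    unfold tf ip
    have : ∀ x, ⟪dil g t x, ψ x⟫ = 0 := by
      intro x
      by_cases hx : x ∈ closedBall (0 : E) ρ
      · have : ψ x = 0 := by simp [hψd, hx]
        rw [this, inner_zero_right]
      · have : dil g t x = 0 := by
          apply hv
          intro hc
          apply hx
          rw [mem_closedBall_zero_iff] at hc ⊢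
          rw [norm_smul, norm_inv, Real.norm_eq_abs, abs_of_pos ht.1, inv_mul_le_iff₀ ht.1] at hc
          have h0 : 0 ≤ ρ := by
            by_contra hneg
            push Not at hneg
            have := mul_neg_of_pos_of_neg ht.1 hneg
            linarith [norm_nonneg x]
          calc ‖x‖ ≤ t * ρ := hc
            _ ≤ 1 * ρ := by gcongr; exact ht.2
            _ = ρ := one_mul _
        rw [this, inner_zero_left]
    simp [this]
  rw [← h ψ hψ] at h1
  have h2 : Pool.Agent.Helper38.Curl.sq ψ = 0 := by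
    rw [← h1]
    unfold Pool.Agent.Helper38.Curl.sq ip
    congr 1
    ext x
    by_cases hx : x ∈ closedBall (0 : E) ρ
    · have : ψ x = 0 := by simp [hψd, hx]
      simp [this]
    · have : ψ x = a x := by simp [hψd, hx]
      rw [this, real_inner_self_eq_norm_sq]
  have h3 : ψ =ᵐ[volume] 0 := by
    have := (integral_eq_zero_iff_of_nonneg (fun x => by positivity)
      (integrable_norm_sq hψ)).1 h2
    filter_upwards [this] with x hx
    simpa using hx
  filter_upwards [h3] with x hx hxn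
  have : ψ x = a x := by simp only [hψd]; rw [indicator_of_mem]; exact hxn
  rw [← this, hx]; rfl

end Pool.Agent.Helper66.Curl
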